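import Pool.Agent.SAWP2.Const

set_option autoImplicit false

open MeasureTheory Filter Topology

namespace Pool.Agent.Results.MP_425fca_pr.DeterministicLimit

/-- The square lattice `Z²` (nearest-neighbour graph). -/
def lattice : SimpleGraph (ℤ × ℤ) where
  Adj x y := |x.1 - y.1| + |x.2 - y.2| = 1
  symm := ⟨fun x y h => by
    rw [abs_sub_comm y.1, abs_sub_comm y.2]
    exact h⟩
  loopless := ⟨fun x h => by simp at h⟩

/-- The graph of the open edges, for a set `O` of edges of the lattice. -/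
def openGraph (O : Set lattice.edgeSet) : SimpleGraph (ℤ × ℤ) where
  Adj x y := ∃ h : lattice.Adj x y, (⟨s(x, y), h⟩ : lattice.edgeSet) ∈ O
  symm := ⟨fun x y h => by
    obtain ⟨h1, h2⟩ := h
    refine ⟨h1.symm, ?_⟩
    have e : (⟨s(y, x), h1.symm⟩ : lattice.edgeSet) = ⟨s(x, y), h1⟩ := Subtype.ext Sym2.eq_swap
    rw [e]
    exact h2⟩
  loopless := ⟨fun x h => by
    obtain ⟨h1, _⟩ := h
    exact lattice.loopless.irrefl x h1⟩

/-- The number of `n`-step self-avoiding walks in `G` that start at `v` (pairs of an endpoint `w`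
and a walk from `v` to `w` that is a path of length `n`). -/
noncomputable def sawCount (G : SimpleGraph (ℤ × ℤ)) (v : ℤ × ℤ) (n : ℕ) : ℕ :=
  Set.ncard {q : (Σ w : ℤ × ℤ, G.Walk v w) | q.2.IsPath ∧ q.2.length = n}

/-- The connected component (cluster) of `v` in `G` is infinite. -/
def InInfiniteCluster (G : SimpleGraph (ℤ × ℤ)) (v : ℤ × ℤ) : Prop :=
  {w : ℤ × ℤ | G.Reachable v w}.Infinite

lemma adj_of_step (x : ℤ × ℤ) (b : Bool) :
    lattice.Adj x (if b then (x.1, x.2 + 1) else (x.1 + 1, x.2)) := by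
  cases b <;> simp [lattice]

/-- the edge of the lattice with a given code -/
def edge (e : (ℤ × ℤ) × Bool) : lattice.edgeSet :=
  ⟨s(e.1, if e.2 then (e.1.1, e.1.2 + 1) else (e.1.1 + 1, e.1.2)), adj_of_step e.1 e.2⟩

lemma edge_injective : Function.Injective edge := by
  rintro ⟨⟨a, b⟩, i⟩ ⟨⟨c, d⟩, j⟩ h
  have h' := congrArg Subtype.val h
  cases i <;> cases j <;> simp [edge, Sym2.eq_iff] at h' ⊢ <;> omega

lemma graph_eq {Ω : Type} (U : lattice.edgeSet → Set Ω) (ω : Ω) :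
    openGraph {e | ω ∈ U e} = SimpleGraph.fromRel (fun x y : ℤ × ℤ =>
      (y = (x.1 + 1, x.2) ∧ ω ∈ (U ∘ edge) (x, false)) ∨
      (y = (x.1, x.2 + 1) ∧ ω ∈ (U ∘ edge) (x, true))) := by
  have key : ∀ (x y : ℤ × ℤ) (b : Bool) (h : lattice.Adj x y),
      y = (if b then (x.1, x.2 + 1) else (x.1 + 1, x.2)) →
      (⟨s(x, y), h⟩ : lattice.edgeSet) = edge (x, b) := by
    rintro x y b h rfl
    rfl
  have key' : ∀ (x y : ℤ × ℤ) (b : Bool) (h : lattice.Adj x y),
      x = (if b then (y.1, y.2 + 1) else (y.1 + 1, y.2)) →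
      (⟨s(x, y), h⟩ : lattice.edgeSet) = edge (y, b) := by
    rintro x y b h rfl
    exact Subtype.ext Sym2.eq_swap
  ext x y
  rw [SimpleGraph.fromRel_adj]
  constructor
  · rintro ⟨h, hO⟩
    refine ⟨h.ne, ?_⟩
    have hO' : ω ∈ U ⟨s(x, y), h⟩ := hO
    have hadj : |x.1 - y.1| + |x.2 - y.2| = 1 := h
    have hc : y = (x.1 + 1, x.2) ∨ y = (x.1, x.2 + 1) ∨ x = (y.1 + 1, y.2) ∨
        x = (y.1, y.2 + 1) := by
      obtain ⟨x1, x2⟩ := x
      obtain ⟨y1, y2⟩ := y
      simp only at hadj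
      simp only [Prod.mk.injEq]
      rcases abs_cases (x1 - y1) with ⟨h1, _⟩ | ⟨h1, _⟩ <;>
        rcases abs_cases (x2 - y2) with ⟨h2, _⟩ | ⟨h2, _⟩ <;> omega
    rcases hc with hc | hc | hc | hc
    · rw [key x y false h hc] at hO'
      exact Or.inl (Or.inl ⟨hc, hO'⟩)
    · rw [key x y true h hc] at hO'
      exact Or.inl (Or.inr ⟨hc, hO'⟩)
    · rw [key' x y false h hc] at hO'
      exact Or.inr (Or.inl ⟨hc, hO'⟩)
    · rw [key' x y true h hc] at hO'
      exact Or.inr (Or.inr ⟨hc, hO'⟩)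
  · rintro ⟨-, (⟨h, hO⟩ | ⟨h, hO⟩) | (⟨h, hO⟩ | ⟨h, hO⟩)⟩
    · subst h
      exact ⟨adj_of_step x false, hO⟩
    · subst h
      exact ⟨adj_of_step x true, hO⟩
    · subst h
      refine ⟨(adj_of_step y false).symm, ?_⟩
      exact (congrArg (fun e => ω ∈ U e)
        (key' _ y false (adj_of_step y false).symm rfl)).mpr hO
    · subst h
      refine ⟨(adj_of_step y true).symm, ?_⟩
      exact (congrArg (fun e => ω ∈ U e)
        (key' _ y true (adj_of_step y true).symm rfl)).mpr hO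

/-- Bond percolation on `Z²` with `1/2 < p ≤ 1`: there is a deterministic constant `μ ≥ 1`,
depending only on `p`, such that almost surely `σ_n(v)^{1/n} → μ` for every vertex `v` of an
infinite open cluster. Here `U e` is the event that the edge `e` is open. -/
theorem result : ∀ p : ℝ, 1 / 2 < p → p ≤ 1 → ∃ μ : ℝ, 1 ≤ μ ∧
    ∀ (Ω : Type) [MeasurableSpace Ω] (P : Measure Ω) [IsProbabilityMeasure P]
      (U : lattice.edgeSet → Set Ω), (∀ e, MeasurableSet (U e)) →
      (∀ e, P (U e) = ENNReal.ofReal p) → ProbabilityTheory.iIndepSet U P →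
      ∀ᵐ ω ∂P, ∀ v : ℤ × ℤ, InInfiniteCluster (openGraph {e | ω ∈ U e}) v →
        Tendsto (fun n : ℕ => (sawCount (openGraph {e | ω ∈ U e}) v n : ℝ) ^ ((1 : ℝ) / (n : ℝ)))
          atTop (𝓝 μ) := by
  intro p hp hp1
  have hp0 : (0 : ℝ) ≤ p := by linarith
  obtain ⟨μ, hμ1, hμ⟩ := SAWP.limit_const ⟨p, hp0, hp1⟩ hp
  refine ⟨μ, hμ1, ?_⟩
  intro Ω _ P _ U hU hPU hind
  have hind' : ProbabilityTheory.iIndepSet (U ∘ edge) P := hind.precomp edge_injective
  obtain ⟨hm, hmap⟩ := SAWP.law_eq P (U ∘ edge) (fun e => hU _) ⟨p, hp0, hp1⟩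
    (fun e => hPU _) hind'
  rw [← hmap] at hμ
  filter_upwards [ae_of_ae_map hm hμ] with ω hω v hv
  unfold sawCount
  unfold InInfiniteCluster at hv
  rw [graph_eq] at hv ⊢
  simp only [SAWP.graph_sig]
  apply hω v
  simpa only [SAWP.InfCl, SAWP.graph_conn] using hv

end Pool.Agent.Results.MP_425fca_pr.DeterministicLimit
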